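import Pool.Agent.H29.FX.TargetsQ
import Pool.Agent.H27.TFX.FLO

/-!
Row FOQ of tfx_modules: the flow of one derivation is an evaluation, general modulus (adapted from
the file FLO of helper27).
-/

set_option autoImplicit false

open Finset MvPolynomial

namespace Pool.Agent.H1.TFX

open Pool.Agent.H29.FX Pool.Agent.H27.TFX

private theorem foq_fact (p s m : ℕ) (hp : ∀ l : ℕ, l.Prime → l ∣ p → s ≤ l) (hm : m < s) :
    ((m.factorial : ℕ) : ZMod (p ^ s)) * iv p s m = 1 := by
  have h : Nat.Coprime m.factorial (p ^ s) := by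
    refine Nat.Coprime.pow_right _ ?_
    refine Nat.coprime_of_dvd fun l hl h1 h2 => ?_
    have h3 := (Nat.Prime.dvd_factorial hl).1 h1
    have h4 := hp l hl h2
    omega
  exact ZMod.coe_mul_inv_eq_one _ h

private theorem foq_choose (p s i j : ℕ) (hp : ∀ l : ℕ, l.Prime → l ∣ p → s ≤ l)
    (hij : i + j < s) :
    iv p s (i + j) * (((i + j).choose i : ℕ) : ZMod (p ^ s)) = iv p s i * iv p s j := by
  have h1 := foq_fact p s (i + j) hp hij
  have h2 := foq_fact p s i hp (by omega)
  have h3 := foq_fact p s j hp (by omega)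
  have h4 : (((i + j).choose i : ℕ) : ZMod (p ^ s)) * ((i.factorial : ℕ) : ZMod (p ^ s)) *
      ((j.factorial : ℕ) : ZMod (p ^ s)) = (((i + j).factorial : ℕ) : ZMod (p ^ s)) := by
    rw [← Nat.cast_mul, ← Nat.cast_mul, Nat.choose_symm_add,
      Nat.add_choose_mul_factorial_mul_factorial i j]
  calc iv p s (i + j) * (((i + j).choose i : ℕ) : ZMod (p ^ s))
      = iv p s (i + j) * (((i + j).choose i : ℕ) : ZMod (p ^ s)) *
        (((i.factorial : ℕ) : ZMod (p ^ s)) * iv p s i) *
        (((j.factorial : ℕ) : ZMod (p ^ s)) * iv p s j) := by rw [h2, h3]; ring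
    _ = ((((i + j).choose i : ℕ) : ZMod (p ^ s)) * ((i.factorial : ℕ) : ZMod (p ^ s)) *
      ((j.factorial : ℕ) : ZMod (p ^ s))) * iv p s (i + j) * (iv p s i * iv p s j) := by ring
    _ = iv p s i * iv p s j := by rw [h4, h1, one_mul]

private theorem foq_E_mul {n : ℕ} (p s : ℕ) (D : Dr n) (t : ZMod (p ^ s))
    (x : Fin n → ZMod (p ^ s)) (hp : ∀ l : ℕ, l.Prime → l ∣ p → s ≤ l) (ht : Nl p s t)
    (f g : Pl n) : floE p s D t x (f * g) = floE p s D t x f * floE p s D t x g := by
  have ht0 : ∀ m, s ≤ m → t ^ m = 0 := by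
    intro m hm
    obtain ⟨t', rfl⟩ := ht
    have h : (p : ZMod (p ^ s)) ^ s = 0 := by
      rw [← Nat.cast_pow]
      exact ZMod.natCast_self (p ^ s)
    rw [mul_pow, pow_eq_zero_of_le hm h, zero_mul]
  have h1 : floE p s D t x f * floE p s D t x g = ∑ i ∈ range s, ∑ j ∈ range s,
      (t ^ (i + j) * (iv p s i * iv p s j)) * (aeval x ((fun g => D g)^[i] f) *
        aeval x ((fun g => D g)^[j] g)) := by
    unfold floE
    rw [Finset.sum_mul_sum]
    refine Finset.sum_congr rfl fun i _ => Finset.sum_congr rfl fun j _ => ?_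
    rw [pow_add]
    ring
  rw [h1, flo_sq s (fun i j => (t ^ (i + j) * (iv p s i * iv p s j)) *
    (aeval x ((fun g => D g)^[i] f) * aeval x ((fun g => D g)^[j] g)))]
  · unfold floE
    refine Finset.sum_congr rfl fun m hm => ?_
    rw [flo_leib, map_sum, Finset.mul_sum]
    refine Finset.sum_congr rfl fun ij hij => ?_
    have hij' := HasAntidiagonal.mem_antidiagonal.mp hij
    have h2 := foq_choose p s ij.1 ij.2 hp (by rw [hij']; exact mem_range.mp hm)
    rw [hij'] at h2
    rw [← h2, hij', map_nsmul, map_mul, nsmul_eq_mul]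
    ring
  · intro i j hij
    rw [ht0 _ hij, zero_mul, zero_mul]

/-- (FOQ) the flow of one derivation is an evaluation, general `p`. -/
theorem pf_FOQ : T_FOQ := by
  intro n p s D t x f _ hp ht
  change aeval (fl p s D t x) f = floE p s D t x f
  induction f using MvPolynomial.induction_on with
  | C a =>
    rw [flo_E_C]
    simp
  | add f g hf hg => rw [map_add, hf, hg, flo_E_add]
  | mul_X f v hf =>
    rw [map_mul, hf, foq_E_mul p s D t x hp ht, aeval_X]
    rfl

end Pool.Agent.H1.TFX
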