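import Pool.Agent.H29.FX.Targets

/-!
# MP_7ecdd4_nt, row LEI: the Leibniz rule for ordered words
-/

set_option autoImplicit false

open Finset MvPolynomial

namespace Pool.Agent.H1.TFX

open Pool.Agent.H29.FX

section

variable {A : Type} [CommRing A]

private theorem lei_one (D : Derivation ℤ A A) (n : ℕ) (f g : A) :
    (fun a => D a)^[n] (f * g) = ∑ j ∈ range (n + 1),
      ((n.choose j : ℕ) : A) * ((fun a => D a)^[j] f * (fun a => D a)^[n - j] g) := by
  have key : (fun a => D a)^[n] (f * g) = ∑ ij ∈ antidiagonal n,
      ((n.choose ij.1 : ℕ) : A) * ((fun a => D a)^[ij.1] f * (fun a => D a)^[ij.2] g) := by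
    induction n with
    | zero => simp
    | succ n ih =>
      rw [Function.iterate_succ_apply', ih,
        Finset.sum_antidiagonal_choose_succ_mul
          (fun i j => (fun a => D a)^[i] f * (fun a => D a)^[j] g) n]
      show D (∑ ij ∈ antidiagonal n, _) = _
      rw [map_sum, ← sum_add_distrib]
      refine sum_congr rfl fun ij hij => ?_
      have h1 : ij.1 + ij.2 = n := mem_antidiagonal.1 hij
      have h2 : n.choose ij.2 = n.choose ij.1 := by
        rw [Nat.choose_symm_of_eq_add h1.symm]
      rw [h2, Derivation.leibniz, Derivation.leibniz, Derivation.map_natCast,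
        Function.iterate_succ_apply', Function.iterate_succ_apply']
      simp only [smul_eq_mul]
      ring
  rw [key]
  exact Finset.Nat.sum_antidiagonal_eq_sum_range_succ
    (fun i j => ((n.choose i : ℕ) : A) * ((fun a => D a)^[i] f * (fun a => D a)^[j] g)) n

private theorem lei_sum (D : Derivation ℤ A A) (n : ℕ) {ι : Type} (s : Finset ι) (F : ι → A) :
    (fun a => D a)^[n] (∑ i ∈ s, F i) = ∑ i ∈ s, (fun a => D a)^[n] (F i) := by
  induction n with
  | zero => simp
  | succ n ih =>
    rw [Function.iterate_succ_apply', ih]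
    show D (∑ i ∈ s, _) = _
    rw [map_sum]
    exact sum_congr rfl fun i _ => (Function.iterate_succ_apply' _ _ _).symm

private theorem lei_nat (D : Derivation ℤ A A) (n c : ℕ) (a : A) :
    (fun a => D a)^[n] ((c : A) * a) = (c : A) * (fun a => D a)^[n] a := by
  induction n with
  | zero => simp
  | succ n ih =>
    rw [Function.iterate_succ_apply', ih, Function.iterate_succ_apply']
    show D ((c : A) * _) = _
    rw [Derivation.leibniz, Derivation.map_natCast, smul_zero, add_zero, smul_eq_mul]

/-- the word for `k` derivations -/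
private def lei_w {k : ℕ} (D : Fin k → Derivation ℤ A A) (α : Fin k → ℕ) (f : A) : A :=
  (List.finRange k).foldr (fun i h => (fun g => D i g)^[α i] h) f

private theorem lei_w_succ {k : ℕ} (D : Fin (k + 1) → Derivation ℤ A A) (α : Fin (k + 1) → ℕ)
    (f : A) : lei_w D α f =
      (fun g => D 0 g)^[α 0] (lei_w (fun i => D i.succ) (fun i => α i.succ) f) := by
  unfold lei_w
  rw [List.finRange_succ, List.foldr_cons, List.foldr_map]

private theorem lei_gen : ∀ {k : ℕ} (D : Fin k → Derivation ℤ A A) (α : Fin k → ℕ) (f g : A),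
    lei_w D α (f * g) = ∑ β ∈ Fintype.piFinset (fun v => range (α v + 1)),
      (∏ v, (((α v).choose (β v) : ℕ) : A)) * (lei_w D β f * lei_w D (fun v => α v - β v) g)
  | 0, D, α, f, g => by
    simp [lei_w]
  | k + 1, D, α, f, g => by
    have ih := lei_gen (fun i => D i.succ) (fun i => α i.succ) f g
    rw [lei_w_succ, ih, lei_sum]
    have h1 : ∀ β ∈ Fintype.piFinset (fun v : Fin k => range (α v.succ + 1)),
        (fun g => D 0 g)^[α 0] ((∏ v, (((α v.succ).choose (β v) : ℕ) : A)) *
          (lei_w (fun i => D i.succ) β f *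
            lei_w (fun i => D i.succ) (fun v => α v.succ - β v) g)) =
        ∑ j ∈ range (α 0 + 1), (∏ v, (((α v).choose ((Fin.cons j β : Fin (k + 1) → ℕ) v) : ℕ) : A)) *
          (lei_w D (Fin.cons j β) f *
            lei_w D (fun v => α v - (Fin.cons j β : Fin (k + 1) → ℕ) v) g) := by
      intro β _
      rw [← Nat.cast_prod, lei_nat, lei_one, mul_sum]
      refine sum_congr rfl fun j _ => ?_
      rw [Fin.prod_univ_succ, lei_w_succ D (Fin.cons j β) f,
        lei_w_succ D (fun v => α v - (Fin.cons j β : Fin (k + 1) → ℕ) v) g]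
      simp only [Fin.cons_zero, Fin.cons_succ]
      push_cast
      ring
    rw [sum_congr rfl h1, sum_comm, ← sum_product']
    refine sum_bij' (fun x _ => (Fin.cons x.1 x.2 : Fin (k + 1) → ℕ))
      (fun β _ => (β 0, fun v => β v.succ)) ?_ ?_ ?_ ?_ ?_
    · intro x hx
      rw [mem_product] at hx
      rw [Fintype.mem_piFinset]
      intro v
      refine Fin.cases ?_ (fun w => ?_) v
      · simpa using hx.1
      · have := Fintype.mem_piFinset.1 hx.2 w
        simpa using this
    · intro β hβ
      rw [Fintype.mem_piFinset] at hβ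
      rw [mem_product, Fintype.mem_piFinset]
      exact ⟨hβ 0, fun v => hβ v.succ⟩
    · intro x _
      simp
    · intro β _
      funext v
      refine Fin.cases ?_ (fun w => ?_) v
      · simp
      · simp
    · intro x _
      rfl

end

/-- (LEI) the Leibniz rule for ordered words. -/
theorem pf_LEI : T_LEI := by
  intro n D α f g
  exact lei_gen D α f g

end Pool.Agent.H1.TFX
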